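import Pool.Agent.Helper9.RC2.Goals
import Pool.Agent.Helper32.RC.CutDown
import Pool.Agent.Helper10.RC.Homs

/-!
# MP_b55b7c_an, project RC2, packet CRG: the criterion with a gap in `A`
-/

open scoped ENNReal NNReal InnerProductSpace ComplexOrder
open Filter Topology

attribute [-instance] CStarMatrix.instAlgebra CStarMatrix.instModule CStarMatrix.instSMul
  CStarMatrix.instMulAction CStarMatrix.instDistribMulAction

noncomputable section
namespace Pool.Agent.Helper33.RC2.CRG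
open RC
universe u

theorem cut_anti {D : Type u} [CStarAlgebra D] [PartialOrder D] [StarOrderedRing D] (a : D)
    {s t : ℝ} (h : s ≤ t) : cut a t ≤ cut a s := by
  unfold cut
  refine cfc_mono fun x _ => ?_
  exact max_le_max (by linarith) le_rfl

theorem t (hTrans : CuTransP.{u}) (hDs : CuDsumP.{u}) (hMono : QMonoP.{u})
    (hDsum : QDsumP.{u}) (hMp : MpP.{u}) (hPull : QPullP.{u}) (hSB : SBP.{u})
    (hLe : CuLeAddP.{u}) (hCD : CutDownGP.{u}) : CritGP.{u} := by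
  intro A _ _ _ B _ _ _ G _ _ α j hact hfix hsimp hNice r₁ ρ r hr₁ hρ hr hTC hcomp ι κ
    _ _ _ _ a b ha hb hlt ε hε
  obtain ⟨m, hm⟩ := hSB A B G α j hact hfix hsimp
  set n : ℝ := (Fintype.card G : ℝ) with hn
  have hn0 : 0 ≤ n := by positivity
  set η : ℝ := (r - ρ - r₁) / 4 with hη
  have hη0 : 0 < η := by rw [hη]; linarith
  have hη4 : r = ρ + r₁ + 4 * η := by rw [hη]; ring
  obtain ⟨N, z, g, hz, hg, hzd⟩ := hNice (ρ + η) η (by positivity) hη0
  -- the size of `δ`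
  obtain ⟨δ, hδ0, hδε, hδg, hδη⟩ : ∃ δ : ℝ, 0 < δ ∧ 4 * δ ≤ ε / 2 ∧ 4 * δ ≤ g ∧
      2 * (m * (n * δ)) < η := by
    refine ⟨min (ε / 8) (min (g / 4) (η / (2 * (m * n + 1)))), by positivity, ?_, ?_, ?_⟩
    · have := min_le_left (ε / 8) (min (g / 4) (η / (2 * (m * n + 1))))
      linarith
    · have h1 := min_le_right (ε / 8) (min (g / 4) (η / (2 * (m * n + 1))))
      have h2 := min_le_left (g / 4) (η / (2 * (m * n + 1)))
      linarith
    · have h1 := min_le_right (ε / 8) (min (g / 4) (η / (2 * (m * n + 1))))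
      have h2 := min_le_right (g / 4) (η / (2 * (m * n + 1)))
      have h3 : min (ε / 8) (min (g / 4) (η / (2 * (m * n + 1)))) ≤ η / (2 * (m * n + 1)) :=
        h1.trans h2
      rw [le_div_iff₀ (by positivity)] at h3
      have h4 : 0 < min (ε / 8) (min (g / 4) (η / (2 * (m * n + 1)))) := by positivity
      nlinarith
  have hjz : 0 ≤ mp j z := (hMp A B j hfix.1 (Fin N) (Fin N) z z).1.1 hz
  -- tracial comparison in `A`
  have hlt' : ∀ σ : QTrace A, σ.dim (dsum a (mp j z)) + r₁ < σ.dim b := by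
    intro σ
    obtain ⟨ω, hω⟩ := hPull A B j hfix.1 σ
    have h1 := (hDsum A σ ι (Fin N) a (mp j z) ha hjz).2
    have h2 := hω (Fin N) z hz
    have h3 := (hzd ω).2
    have h4 := hlt σ
    rw [h1]
    linarith
  have hdz : 0 ≤ dsum a (mp j z) := dsum_nonneg ha hjz
  obtain ⟨y, c, hc, hyc, hcd'⟩ := hTC (ι ⊕ Fin N) κ (dsum a (mp j z)) b hdz hb hlt' δ hδ0
  obtain ⟨a₁, e₀, e₁, d, ha₁, he₀, he₁, hd, hc1, hc2, hc3, hc4, hc5⟩ :=
    hCD A B G α j hact hfix ι κ (Fin N) a b z y c δ δ ha hb hz hc hδ0 hyc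
      (fun σ => (hcd' σ).le)
  -- `e₀ ≼ d` in `B`
  have hed : Cu e₀ d := by
    refine hcomp ι (Fin N) e₀ d he₀ hd fun ω => ?_
    obtain ⟨σ, hσ⟩ := hm ω
    have h0 : ω.dim e₀ ≤ m * (n * δ) :=
      (hσ ι e₀ he₀).2.trans (mul_le_mul_of_nonneg_left (hc4 σ) (by positivity))
    have h1 : ω.dim e₁ ≤ m * (n * δ) :=
      (hσ (Fin N) e₁ he₁).2.trans (mul_le_mul_of_nonneg_left (hc5 σ) (by positivity))
    have h2 : ω.dim (cut z (4 * δ)) ≤ ω.dim (dsum d e₁) :=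
      hMono B ω (Fin N) (Fin N ⊕ Fin N) _ _ (cut_nonneg _ _) (dsum_nonneg hd he₁) hc3
    rw [(hDsum B ω (Fin N) (Fin N) d e₁ hd he₁).2] at h2
    have h3 : ω.dim (cut z g) ≤ ω.dim (cut z (4 * δ)) :=
      hMono B ω (Fin N) (Fin N) _ _ (cut_nonneg _ _) (cut_nonneg _ _)
        (RC.CutDown.cu_of_le hLe (cut_nonneg _ _) (cut_nonneg _ _) (cut_anti z hδg))
    have h4 := (hzd ω).1
    linarith
  have h1 : Cu (mp j e₀) (mp j d) := (hMp A B j hfix.1 ι (Fin N) e₀ d).2.2.1 hed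
  have h2 : Cu (dsum a₁ (mp j e₀)) (dsum a₁ (mp j d)) :=
    hDs A ι ι ι (Fin N) a₁ a₁ (mp j e₀) (mp j d) (Cu.refl _) h1
  have h3 : Cu (cut a (4 * δ)) b :=
    hTrans A ι (ι ⊕ ι) κ _ _ _ hc1 (hTrans A (ι ⊕ ι) (ι ⊕ Fin N) κ _ _ _ h2 hc2)
  obtain ⟨v, hv⟩ := h3 (ε / 2) (by positivity)
  refine ⟨v, ?_⟩
  have h4 : ‖a - cut a (4 * δ)‖ ≤ 4 * δ := norm_sub_cut_le ha (by positivity)
  have h5 : v * b * v.conjTranspose - a =
      (v * b * v.conjTranspose - cut a (4 * δ)) - (a - cut a (4 * δ)) := by abel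
  rw [h5]
  refine (norm_sub_le _ _).trans_lt ?_
  linarith

end Pool.Agent.Helper33.RC2.CRG
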